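import Pool.Agent.helper37.CZ.Spec

/-!
# Project cz (MP_376aaf_an): row ASY
-/

set_option autoImplicit false

open scoped Matrix Topology ComplexConjugate
open Filter

namespace Pool.Agent.CZ

/-- the tails of the forward orbits are dense -/
theorem ASY_dense {X : Type} [TopologicalSpace X] [CompactSpace X] (α : X ≃ₜ X)
    (hα : IsMinimal α) (x0 : X) (N0 : ℕ) : Dense {y : X | ∃ N : ℕ, N0 ≤ N ∧ y = (α ^ (N : ℤ)) x0} := by
  obtain ⟨y, -, hy⟩ := isCompact_univ.exists_mapClusterPt (f := atTop)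
    (u := fun N : ℕ => (α ^ (N : ℤ)) x0) (by simp)
  rw [dense_iff_inter_open]
  intro U hU hne
  obtain ⟨z, hzU, k, hk⟩ := (hα y).inter_open_nonempty U hU hne
  simp only at hk
  have hV : (α ^ k) ⁻¹' U ∈ 𝓝 y :=
    (hU.preimage (α ^ k).continuous).mem_nhds (by rw [Set.mem_preimage, hk]; exact hzU)
  have hfr := (mapClusterPt_iff_frequently.1 hy) _ hV
  obtain ⟨N, hN, hNU⟩ := (Filter.frequently_atTop.1 hfr) (N0 + k.natAbs)
  have h1 : (0 : ℤ) ≤ N + k := by omega
  refine ⟨(α ^ (N + k : ℤ)) x0, ?_, (N + k : ℤ).toNat, ?_, ?_⟩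
  · rw [add_comm, zpow_add]
    exact hNU
  · omega
  · rw [Int.toNat_of_nonneg h1]

/-- an inequality which holds on a tail holds everywhere -/
theorem ASY_le {X : Type} [TopologicalSpace X] [CompactSpace X] (α : X ≃ₜ X)
    (hα : IsMinimal α) (x0 : X) (N0 : ℕ) (f : X → ℝ) (hf : Continuous f) (c : ℝ)
    (h : ∀ N : ℕ, N0 ≤ N → f ((α ^ (N : ℤ)) x0) ≤ c) (y : X) : f y ≤ c := by
  have h1 : IsClosed {y : X | f y ≤ c} := isClosed_le hf continuous_const
  have h2 : closure {y : X | ∃ N : ℕ, N0 ≤ N ∧ y = (α ^ (N : ℤ)) x0} ⊆ {y : X | f y ≤ c} :=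
    closure_minimal (by rintro y ⟨N, hN, rfl⟩; exact h N hN) h1
  exact h2 (ASY_dense α hα x0 N0 y)

theorem ASY : ASY_stmt := by
  intro X _ _ α hα h x0 hv hC
  set e : ℕ → ℂ := fun N =>
    Complex.exp (2 * Real.pi * Complex.I * ∑ m ∈ Finset.range N, h ((α ^ (m : ℤ)) x0)) with he
  have hpos : ∀ n : ℕ, (0 : ℝ) < 1 / ((n : ℝ) + 1) := fun n => by positivity
  choose v N0 hvN using fun n : ℕ => hv (1 / ((n : ℝ) + 1)) (hpos n)
  have hvv : ∀ n m : ℕ, ‖v n - v m‖ ≤ 1 / ((n : ℝ) + 1) + 1 / ((m : ℝ) + 1) := by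
    intro n m
    rw [ContinuousMap.norm_le _ (by positivity)]
    intro y
    refine ASY_le α hα x0 (max (N0 n) (N0 m)) (fun y => ‖(v n - v m) y‖)
      ((v n - v m).continuous.norm) _ ?_ y
    intro N hN
    have h1 := hvN n N ((le_max_left _ _).trans hN)
    have h2 := hvN m N ((le_max_right _ _).trans hN)
    rw [norm_sub_rev] at h1
    rw [ContinuousMap.sub_apply]
    calc ‖v n ((α ^ (N : ℤ)) x0) - v m ((α ^ (N : ℤ)) x0)‖
        ≤ ‖v n ((α ^ (N : ℤ)) x0) - e N‖ + ‖e N - v m ((α ^ (N : ℤ)) x0)‖ :=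
          norm_sub_le_norm_sub_add_norm_sub _ _ _
      _ ≤ 1 / ((n : ℝ) + 1) + 1 / ((m : ℝ) + 1) := add_le_add h1 h2
  have hb : Tendsto (fun n : ℕ => 2 * (1 / ((n : ℝ) + 1))) atTop (𝓝 0) := by
    have h1 := (tendsto_one_div_add_atTop_nhds_zero_nat (𝕜 := ℝ)).const_mul 2
    rwa [mul_zero] at h1
  have hmono : ∀ n m : ℕ, n ≤ m → 1 / ((m : ℝ) + 1) ≤ 1 / ((n : ℝ) + 1) := by
    intro n m hnm
    apply one_div_le_one_div_of_le (by positivity)
    have : (n : ℝ) ≤ m := by exact_mod_cast hnm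
    linarith
  have hcau : CauchySeq v := by
    apply cauchySeq_of_le_tendsto_0 (fun n : ℕ => 2 * (1 / ((n : ℝ) + 1))) _ hb
    intro n m N hn hm
    rw [dist_eq_norm]
    have h1 := hvv n m
    have h2 := hmono N n hn
    have h3 := hmono N m hm
    linarith
  obtain ⟨w, hw⟩ := cauchySeq_tendsto_of_complete hcau
  have hvw : ∀ n : ℕ, ‖v n - w‖ ≤ 2 * (1 / ((n : ℝ) + 1)) := by
    intro n
    have h1 : Tendsto (fun m : ℕ => ‖v n - v m‖) atTop (𝓝 ‖v n - w‖) :=
      (tendsto_const_nhds.sub hw).norm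
    refine le_of_tendsto h1 ?_
    filter_upwards [eventually_ge_atTop n] with m hm
    have h2 := hvv n m
    have h3 := hmono n m hm
    linarith
  have hew : ∀ ε : ℝ, 0 < ε → ∃ M : ℕ, ∀ N : ℕ, M ≤ N → ‖e N - w ((α ^ (N : ℤ)) x0)‖ ≤ ε := by
    intro ε hε
    obtain ⟨n, hn⟩ := exists_nat_one_div_lt (show 0 < ε / 3 by positivity)
    refine ⟨N0 n, fun N hN => ?_⟩
    have h1 := hvN n N hN
    have h2 : ‖v n ((α ^ (N : ℤ)) x0) - w ((α ^ (N : ℤ)) x0)‖ ≤ 2 * (1 / ((n : ℝ) + 1)) := by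
      have h3 := (v n - w).norm_coe_le_norm ((α ^ (N : ℤ)) x0)
      rw [ContinuousMap.sub_apply] at h3
      exact h3.trans (hvw n)
    calc ‖e N - w ((α ^ (N : ℤ)) x0)‖
        ≤ ‖e N - v n ((α ^ (N : ℤ)) x0)‖ + ‖v n ((α ^ (N : ℤ)) x0) - w ((α ^ (N : ℤ)) x0)‖ :=
          norm_sub_le_norm_sub_add_norm_sub _ _ _
      _ ≤ ε := by
          have h4 : ‖e N - v n ((α ^ (N : ℤ)) x0)‖ ≤ 1 / ((n : ℝ) + 1) := h1
          linarith
  have hsucc : ∀ N : ℕ, e (N + 1) =
      Complex.exp (2 * Real.pi * Complex.I * h ((α ^ (N : ℤ)) x0)) * e N := by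
    intro N
    simp only [he]
    rw [Finset.sum_range_succ, mul_add, Complex.exp_add, mul_comm]
  have hrel : ∀ x, w (α x) = Complex.exp (2 * Real.pi * Complex.I * h x) * w x := by
    set M : ℝ := Real.exp (2 * Real.pi * ‖h‖) with hM
    have hexp : ∀ y, ‖Complex.exp (2 * Real.pi * Complex.I * h y)‖ ≤ M := by
      intro y
      rw [Complex.norm_exp, hM, Real.exp_le_exp]
      have h1 : (2 * Real.pi * Complex.I * h y).re ≤ ‖2 * Real.pi * Complex.I * h y‖ :=
        Complex.re_le_norm _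
      have h2 : ‖2 * Real.pi * Complex.I * h y‖ = 2 * Real.pi * ‖h y‖ := by
        rw [norm_mul, norm_mul, norm_mul, Complex.norm_I, Complex.norm_real,
          Real.norm_of_nonneg Real.pi_pos.le]
        norm_num
      rw [h2] at h1
      have h3 := h.norm_coe_le_norm y
      have h4 := Real.pi_pos
      nlinarith
    have hcont : Continuous (fun y => ‖w (α y) - Complex.exp (2 * Real.pi * Complex.I * h y) *
        w y‖) := by
      have h1 : Continuous (fun y => w (α y)) := w.continuous.comp α.continuous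
      have h2 : Continuous (fun y => Complex.exp (2 * Real.pi * Complex.I * h y)) :=
        Complex.continuous_exp.comp (continuous_const.mul h.continuous)
      exact (h1.sub (h2.mul w.continuous)).norm
    have hM0 : 0 < M := Real.exp_pos _
    have hall : ∀ ε : ℝ, 0 < ε → ∀ y, ‖w (α y) - Complex.exp (2 * Real.pi * Complex.I * h y) *
        w y‖ ≤ ε := by
      intro ε hε y
      obtain ⟨K, hK⟩ := hew (ε / (1 + M)) (by positivity)
      refine ASY_le α hα x0 K _ hcont ε ?_ y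
      intro N hN
      have h1 := hK N hN
      have h2 := hK (N + 1) (by omega)
      have h3 : (α ^ ((N + 1 : ℕ) : ℤ)) x0 = α ((α ^ (N : ℤ)) x0) := by
        rw [Nat.cast_add, Nat.cast_one, add_comm, zpow_add, zpow_one]
        rfl
      rw [h3, hsucc, norm_sub_rev] at h2
      set y' := (α ^ (N : ℤ)) x0 with hy'
      calc ‖w (α y') - Complex.exp (2 * Real.pi * Complex.I * h y') * w y'‖
          ≤ ‖w (α y') - Complex.exp (2 * Real.pi * Complex.I * h y') * e N‖ +
            ‖Complex.exp (2 * Real.pi * Complex.I * h y') * e N -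
              Complex.exp (2 * Real.pi * Complex.I * h y') * w y'‖ :=
            norm_sub_le_norm_sub_add_norm_sub _ _ _
        _ ≤ ε / (1 + M) + M * (ε / (1 + M)) := by
            apply add_le_add h2
            rw [← mul_sub, norm_mul]
            exact mul_le_mul (hexp y') h1 (norm_nonneg _) hM0.le
        _ = ε := by
            field_simp
    intro x
    have h1 : ‖w (α x) - Complex.exp (2 * Real.pi * Complex.I * h x) * w x‖ ≤ 0 :=
      le_of_forall_pos_le_add fun ε hε => by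
        rw [zero_add]
        exact hall ε hε x
    exact sub_eq_zero.1 (norm_le_zero_iff.1 h1)
  refine ⟨w, fun z hz => ?_, hrel⟩
  -- the zero set is invariant
  have hnat : ∀ (n : ℕ) (y : X), w ((α ^ (n : ℤ)) y) = 0 ↔ w y = 0 := by
    intro n
    induction n with
    | zero => intro y; simp
    | succ n ih =>
      intro y
      have h3 : (α ^ ((n + 1 : ℕ) : ℤ)) y = α ((α ^ (n : ℤ)) y) := by
        rw [Nat.cast_add, Nat.cast_one, add_comm, zpow_add, zpow_one]
        rfl
      rw [h3, hrel, mul_eq_zero, ih y]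
      constructor
      · rintro (h4 | h4)
        · exact absurd h4 (Complex.exp_ne_zero _)
        · exact h4
      · exact Or.inr
  have hint : ∀ (k : ℤ), w ((α ^ k) z) = 0 := by
    intro k
    rcases Int.eq_nat_or_neg k with ⟨n, rfl | rfl⟩
    · exact (hnat n z).2 hz
    · have h4 := hnat n ((α ^ (-(n : ℤ))) z)
      have h5 : (α ^ (n : ℤ)) ((α ^ (-(n : ℤ))) z) = z := by
        have h6 : (α ^ (n : ℤ) * α ^ (-(n : ℤ))) z = z := by
          rw [← zpow_add, add_neg_cancel, zpow_zero]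
          rfl
        exact h6
      rw [h5] at h4
      exact h4.1 hz
  have hw0 : ∀ y, w y = 0 := by
    have h1 : IsClosed {y : X | w y = 0} := isClosed_eq w.continuous continuous_const
    have h2 : closure (Set.range (fun n : ℤ => (α ^ n) z)) ⊆ {y : X | w y = 0} :=
      closure_minimal (by rintro y ⟨k, rfl⟩; exact hint k) h1
    exact fun y => h2 (hα z y)
  obtain ⟨C, hC⟩ := hC
  obtain ⟨K, hK⟩ := hew (1 / (2 * (|C| + 1))) (by positivity)
  have h1 := hK K le_rfl
  rw [hw0, sub_zero] at h1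
  have h2 := hC K
  have h3 : e K * Complex.exp (-(2 * Real.pi * Complex.I * ∑ m ∈ Finset.range K,
      h ((α ^ (m : ℤ)) x0))) = 1 := by
    simp only [he]
    rw [← Complex.exp_add, add_neg_cancel, Complex.exp_zero]
  have h4 : (1 : ℝ) ≤ 1 / (2 * (|C| + 1)) * |C| := by
    calc (1 : ℝ) = ‖e K * Complex.exp (-(2 * Real.pi * Complex.I * ∑ m ∈ Finset.range K,
          h ((α ^ (m : ℤ)) x0)))‖ := by rw [h3, norm_one]
      _ ≤ 1 / (2 * (|C| + 1)) * |C| := by
        rw [norm_mul]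
        exact mul_le_mul h1 (h2.trans (le_abs_self C)) (norm_nonneg _) (by positivity)
  have h5 : 1 / (2 * (|C| + 1)) * |C| < 1 := by
    rw [one_div, inv_mul_lt_iff₀ (by positivity)]
    linarith [abs_nonneg C]
  linarith

end Pool.Agent.CZ
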