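import Pool.Agent.helper37.CZ.SpecD

/-!
# Project cz (MP_376aaf_an): row DV0
-/

set_option autoImplicit false

open scoped Matrix Topology ComplexConjugate
open Filter

namespace Pool.Agent.CZ

/-- functions on the integers which vanish far away are summable -/
theorem DV0_fin (f : ℤ → ℂ) (T : ℝ) (h : ∀ k : ℤ, T < |(k : ℝ)| → f k = 0) : Summable f := by
  apply summable_of_ne_finset_zero (s := Finset.Icc (-⌈|T|⌉) ⌈|T|⌉)
  intro k hk
  apply h
  have h1 : |T| ≤ (⌈|T|⌉ : ℝ) := Int.le_ceil _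
  have h2 : (⌈|T|⌉ : ℤ) < |k| := by
    rw [Finset.mem_Icc, not_and_or] at hk
    rw [lt_abs]
    omega
  have h3 : ((⌈|T|⌉ : ℤ) : ℝ) < |(k : ℝ)| := by exact_mod_cast h2
  exact (le_abs_self T).trans_lt (h1.trans_lt h3)

theorem DV0_finN (f : ℕ → ℂ) (T : ℝ) (h : ∀ k : ℕ, T < (k : ℝ) → f k = 0) : Summable f := by
  apply summable_of_ne_finset_zero (s := Finset.range (⌈|T|⌉₊ + 1))
  intro k hk
  apply h
  rw [Finset.mem_range, not_lt] at hk
  have h1 : |T| ≤ (⌈|T|⌉₊ : ℝ) := Nat.le_ceil _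
  have h2 : ((⌈|T|⌉₊ : ℝ)) < k := by exact_mod_cast hk
  exact (le_abs_self T).trans_lt (h1.trans_lt h2)

/-- the negative part -/
noncomputable def DV0_p (t : ℝ) : ℝ := max 0 (-t)

/-- the function `θ` -/
noncomputable def DV0_th (t : ℝ) : ℝ := min 1 (max 0 (-t))

theorem DV0_th_eq (t : ℝ) : DV0_th t = DV0_p t - DV0_p (t + 1) := by
  unfold DV0_th DV0_p
  rcases le_total t (-1) with h | h
  · rw [max_eq_right (by linarith), max_eq_right (by linarith), min_eq_left (by linarith)]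
    ring
  · rw [max_eq_left (show -(t + 1) ≤ 0 by linarith), sub_zero]
    rcases le_total t 0 with h' | h'
    · rw [max_eq_right (by linarith), min_eq_right (by linarith)]
    · rw [max_eq_left (by linarith), min_eq_right (by norm_num)]

theorem DV0_th_neg (t : ℝ) (h : t ≤ -1) : DV0_th t = 1 := by
  unfold DV0_th
  rw [max_eq_right (by linarith), min_eq_left (by linarith)]

theorem DV0_th_pos (t : ℝ) (h : 0 ≤ t) : DV0_th t = 0 := by
  unfold DV0_th
  rw [max_eq_left (by linarith), min_eq_right (by norm_num)]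

theorem DV0_th_cont : Continuous DV0_th :=
  continuous_const.min (continuous_const.max continuous_neg)

/-- the sum of `θ(s + k) - θ(s + r + k)` is `r` -/
theorem DV0_thsum (s r : ℝ) :
    HasSum (fun k : ℤ => (DV0_th (s + k) : ℂ) - (DV0_th (s + r + k) : ℂ)) (r : ℂ) := by
  obtain ⟨N, hN⟩ := exists_nat_gt (|s| + |s + r| + 1)
  have hs := abs_le.1 (le_refl |s|)
  have hsr := abs_le.1 (le_refl |s + r|)
  have h1s := abs_nonneg s
  have h1r := abs_nonneg (s + r)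
  set F : ℤ → ℂ := fun k => (DV0_p (s + k) : ℂ) - (DV0_p (s + r + k) : ℂ) with hF
  have hterm : ∀ k : ℤ, (DV0_th (s + k) : ℂ) - (DV0_th (s + r + k) : ℂ) = F k - F (k + 1) := by
    intro k
    rw [DV0_th_eq, DV0_th_eq, hF]
    push_cast
    rw [add_assoc s, add_assoc (s + r)]
    ring
  let e : ℕ ↪ ℤ := ⟨fun j => (j : ℤ) - N, fun a b h => by
    simp only [sub_left_inj, Nat.cast_inj] at h
    exact h⟩
  have h0 : ∀ k : ℤ, k ∉ (Finset.range (2 * N)).map e →
      (DV0_th (s + k) : ℂ) - (DV0_th (s + r + k) : ℂ) = 0 := by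
    intro k hk
    have hk' : k < -N ∨ (N : ℤ) ≤ k := by
      by_contra hcon
      push Not at hcon
      apply hk
      rw [Finset.mem_map]
      refine ⟨(k + N).toNat, ?_, ?_⟩
      · rw [Finset.mem_range]
        omega
      · show (((k + N).toNat : ℕ) : ℤ) - N = k
        omega
    rcases hk' with hk' | hk'
    · have h2 : (k : ℝ) ≤ -(N : ℝ) := by
        have h3 : (k : ℝ) < ((-N : ℤ) : ℝ) := by exact_mod_cast hk'
        push_cast at h3
        linarith
      rw [DV0_th_neg _ (by linarith), DV0_th_neg _ (by linarith), sub_self]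
    · have h2 : (N : ℝ) ≤ k := by exact_mod_cast hk'
      rw [DV0_th_pos _ (by linarith), DV0_th_pos _ (by linarith), sub_self]
  have h2 := hasSum_sum_of_ne_finset_zero (L := SummationFilter.unconditional ℤ) h0
  rw [Finset.sum_map] at h2
  have h3 : ∑ j ∈ Finset.range (2 * N), ((DV0_th (s + (e j : ℤ)) : ℂ) -
      (DV0_th (s + r + (e j : ℤ)) : ℂ)) = (r : ℂ) := by
    have h4 : ∀ j ∈ Finset.range (2 * N), ((DV0_th (s + (e j : ℤ)) : ℂ) -
        (DV0_th (s + r + (e j : ℤ)) : ℂ)) = (fun i : ℕ => F ((i : ℤ) - N)) j -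
          (fun i : ℕ => F ((i : ℤ) - N)) (j + 1) := by
      intro j _
      rw [hterm]
      show F ((j : ℤ) - N) - F ((j : ℤ) - N + 1) = F ((j : ℤ) - N) - F (((j + 1 : ℕ) : ℤ) - N)
      congr 2
      push_cast
      ring
    rw [Finset.sum_congr rfl h4, Finset.sum_range_sub']
    simp only [hF]
    have e1 : DV0_p (s + ((((0 : ℕ) : ℤ) - N : ℤ) : ℝ)) = -(s - N) := by
      unfold DV0_p
      push_cast
      rw [max_eq_right (by linarith)]
      ring
    have e2 : DV0_p (s + r + ((((0 : ℕ) : ℤ) - N : ℤ) : ℝ)) = -(s + r - N) := by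
      unfold DV0_p
      push_cast
      rw [max_eq_right (by linarith)]
      ring
    have e3 : DV0_p (s + ((((2 * N : ℕ) : ℤ) - N : ℤ) : ℝ)) = 0 := by
      unfold DV0_p
      push_cast
      rw [max_eq_left (by linarith)]
    have e4 : DV0_p (s + r + ((((2 * N : ℕ) : ℤ) - N : ℤ) : ℝ)) = 0 := by
      unfold DV0_p
      push_cast
      rw [max_eq_left (by linarith)]
    rw [e1, e2, e3, e4]
    push_cast
    ring
  rw [h3] at h2
  exact h2

section

variable {X : Type} [TopologicalSpace X]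

/-- half of the orbit sum -/
noncomputable def DV0_Psi (α : X ≃ₜ X) (h : C(X, ℝ)) (f : X → ℝ → ℂ) (x : X) (τ : ℝ) : ℂ :=
  ∑' n : ℕ, f ((α ^ (n : ℤ)) x) (τ + csum α h n x) ^ 2

variable (α : X ≃ₜ X) (h : C(X, ℝ)) (f : X → ℝ → ℂ) (R δ : ℝ)

theorem DV0_term0 (h1 : CSM_stmt) (hδ : 0 < δ) (hh : ∀ x, δ ≤ h x)
    (hR : ∀ x τ, R < |τ| → f x τ = 0) (x : X) (τ : ℝ) (n : ℕ) (hn : R - τ < n * δ) :
    f ((α ^ (n : ℤ)) x) (τ + csum α h n x) ^ 2 = 0 := by
  obtain ⟨-, -, -, -, hlow, -⟩ := h1 X α h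
  have h2 := (hlow δ hh n x).1 (by omega)
  rw [hR _ _ ?_]
  · norm_num
  · have h3 : ((n : ℤ) : ℝ) = (n : ℝ) := by norm_cast
    rw [h3] at h2
    refine lt_of_lt_of_le ?_ (le_abs_self _)
    linarith

theorem DV0_sum (h1 : CSM_stmt) (hδ : 0 < δ) (hh : ∀ x, δ ≤ h x)
    (hR : ∀ x τ, R < |τ| → f x τ = 0) (x : X) (τ : ℝ) :
    Summable (fun n : ℕ => f ((α ^ (n : ℤ)) x) (τ + csum α h n x) ^ 2) := by
  apply DV0_finN _ ((R - τ) / δ)
  intro n hn
  apply DV0_term0 α h f R δ h1 hδ hh hR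
  rwa [div_lt_iff₀ hδ] at hn

theorem DV0_Psi_zero (h1 : CSM_stmt) (hδ : 0 < δ) (hh : ∀ x, δ ≤ h x)
    (hR : ∀ x τ, R < |τ| → f x τ = 0) (x : X) (τ : ℝ) (hτ : R < τ) :
    DV0_Psi α h f x τ = 0 := by
  unfold DV0_Psi
  rw [tsum_congr fun n => DV0_term0 α h f R δ h1 hδ hh hR x τ n ?_, tsum_zero]
  have : 0 ≤ (n : ℝ) * δ := by positivity
  linarith

theorem DV0_Psi_shift (h1 : CSM_stmt) (hδ : 0 < δ) (hh : ∀ x, δ ≤ h x)
    (hR : ∀ x τ, R < |τ| → f x τ = 0) (x : X) (τ : ℝ) :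
    DV0_Psi α h f x τ = f x τ ^ 2 + DV0_Psi α h f (α x) (τ + h x) := by
  obtain ⟨hc0, hc1, hadd, -, -, -⟩ := h1 X α h
  unfold DV0_Psi
  rw [(DV0_sum α h f R δ h1 hδ hh hR x τ).tsum_eq_zero_add]
  congr 1
  · rw [Nat.cast_zero, hc0, add_zero, zpow_zero]
    rfl
  · refine tsum_congr fun n => ?_
    have e1 : (α ^ ((n + 1 : ℕ) : ℤ)) x = (α ^ (n : ℤ)) (α x) := by
      rw [Nat.cast_add, Nat.cast_one, zpow_add, zpow_one]
      rfl
    have e2 : csum α h ((n + 1 : ℕ) : ℤ) x = h x + csum α h n (α x) := by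
      rw [Nat.cast_add, Nat.cast_one, add_comm, hadd, hc1, zpow_one]
    rw [e1, e2, add_assoc]

theorem DV0_Psi_cont (h1 : CSM_stmt) (hδ : 0 < δ) (hh : ∀ x, δ ≤ h x)
    (hR : ∀ x τ, R < |τ| → f x τ = 0) (hf : Continuous (fun p : X × ℝ => f p.1 p.2)) :
    Continuous (fun p : X × ℝ => DV0_Psi α h f p.1 p.2) := by
  obtain ⟨-, -, -, hcont, -, -⟩ := h1 X α h
  rw [continuous_iff_continuousAt]
  intro p0
  obtain ⟨N, hN⟩ := exists_nat_gt ((R - (p0.2 - 1)) / δ)
  have hterm : ∀ n : ℕ, Continuous (fun p : X × ℝ =>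
      f ((α ^ (n : ℤ)) p.1) (p.2 + csum α h n p.1) ^ 2) := by
    intro n
    have h2 : Continuous (fun p : X × ℝ => ((α ^ (n : ℤ)) p.1, p.2 + csum α h n p.1)) :=
      ((α ^ (n : ℤ)).continuous.comp continuous_fst).prodMk
        (continuous_snd.add ((hcont n).comp continuous_fst))
    exact (hf.comp h2).pow 2
  have h2 : Continuous (fun p : X × ℝ =>
      ∑ n ∈ Finset.range N, f ((α ^ (n : ℤ)) p.1) (p.2 + csum α h n p.1) ^ 2) :=
    continuous_finsetSum _ fun n _ => hterm n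
  refine h2.continuousAt.congr ?_
  have hU : {p : X × ℝ | p0.2 - 1 < p.2} ∈ 𝓝 p0 :=
    (isOpen_lt continuous_const continuous_snd).mem_nhds (by show p0.2 - 1 < p0.2; linarith)
  filter_upwards [hU] with p hp
  unfold DV0_Psi
  rw [tsum_eq_sum]
  intro n hn
  apply DV0_term0 α h f R δ h1 hδ hh hR
  rw [Finset.mem_range, not_lt] at hn
  rw [div_lt_iff₀ hδ] at hN
  have h3 : (N : ℝ) * δ ≤ n * δ := by
    apply mul_le_mul_of_nonneg_right _ hδ.le
    exact_mod_cast hn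
  have h4 : p0.2 - 1 < p.2 := hp
  linarith

theorem DV0_Psi_int (h1 : CSM_stmt) (hδ : 0 < δ) (hh : ∀ x, δ ≤ h x)
    (hR : ∀ x τ, R < |τ| → f x τ = 0) (x : X) (τ : ℝ) (hτ : τ < -R) :
    ∑' n : ℤ, f ((α ^ n) x) (τ + csum α h n x) ^ 2 = DV0_Psi α h f x τ := by
  obtain ⟨-, -, -, -, hlow, -⟩ := h1 X α h
  unfold DV0_Psi
  symm
  refine Function.Injective.tsum_eq (g := fun n : ℕ => (n : ℤ)) (fun a b hab => by
    simpa using hab) (f := fun n : ℤ => f ((α ^ n) x) (τ + csum α h n x) ^ 2) ?_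
  intro n hn
  by_contra hcon
  have hn0 : n < 0 := by
    by_contra h2
    push Not at h2
    exact hcon ⟨n.toNat, by simp [h2]⟩
  apply hn
  have h2 := (hlow δ hh n x).2 hn0.le
  have h3 : (n : ℝ) * δ ≤ 0 := by
    have h4 : (n : ℝ) ≤ 0 := by exact_mod_cast hn0.le
    exact mul_nonpos_of_nonpos_of_nonneg h4 hδ.le
  show f ((α ^ n) x) (τ + csum α h n x) ^ 2 = 0
  rw [hR _ _ ?_]
  · norm_num
  · refine lt_of_lt_of_le ?_ (neg_le_abs _)
    linarith

end

/-- the cut-off function -/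
noncomputable def DV0_kap (R t : ℝ) : ℝ := max 0 (min 1 (R + 1 - |t|))

theorem DV0_kap_one (R t : ℝ) (h : |t| ≤ R) : DV0_kap R t = 1 := by
  unfold DV0_kap
  rw [min_eq_left (by linarith), max_eq_right (by norm_num)]

theorem DV0_kap_zero (R t : ℝ) (h : R + 1 < |t|) : DV0_kap R t = 0 := by
  unfold DV0_kap
  apply max_eq_left
  exact (min_le_right _ _).trans (by linarith)

theorem DV0_kap_cont (R : ℝ) : Continuous (DV0_kap R) :=
  continuous_const.max (continuous_const.min (continuous_const.sub continuous_abs))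

theorem DV0 (h1 : CSM_stmt) (h2 : CSL_stmt) (h3 : FSB_stmt) (h4 : PE1_stmt) : DV0_stmt := by
  intro X _ _ α w h hrot hpos K φ hφ
  -- the minimum of `h`
  obtain ⟨δ, hδ, hh⟩ : ∃ δ : ℝ, 0 < δ ∧ ∀ x, δ ≤ h x := by
    rcases isEmpty_or_nonempty X with hX | hX
    · exact ⟨1, one_pos, fun x => (hX.false x).elim⟩
    · obtain ⟨x0, hx0⟩ := isCompact_univ.exists_isMinOn Set.univ_nonempty h.continuous.continuousOn
      exact ⟨h x0, hpos x0, fun x => hx0.2 (Set.mem_univ x)⟩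
  obtain ⟨R0, hR0⟩ := hφ.supp
  set R : ℝ := max R0 1 with hRdef
  have hR1 : 1 ≤ R := le_max_right _ _
  have hR : ∀ i x τ, R < |τ| → φ i () x τ = 0 := fun i x τ hτ =>
    hR0 i () x τ ((le_max_left _ _).trans_lt hτ)
  obtain ⟨hc0, hc1, -, -, -, -⟩ := h1 X α h
  set Psi : X → ℝ → ℂ := fun x τ => ∑ i, DV0_Psi α h (φ i ()) x τ with hPsi
  have hPcont : Continuous (fun p : X × ℝ => Psi p.1 p.2) :=
    continuous_finsetSum _ fun i _ =>
      DV0_Psi_cont α h (φ i ()) R δ h1 hδ hh (hR i) (hφ.cont i ())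
  have hPshift : ∀ x τ, Psi x τ = ∑ i, φ i () x τ ^ 2 + Psi (α x) (τ + h x) := by
    intro x τ
    simp only [hPsi]
    rw [← Finset.sum_add_distrib]
    exact Finset.sum_congr rfl fun i _ => DV0_Psi_shift α h (φ i ()) R δ h1 hδ hh (hR i) x τ
  have hPzero : ∀ x τ, R < τ → Psi x τ = 0 := fun x τ hτ =>
    Finset.sum_eq_zero fun i _ => DV0_Psi_zero α h (φ i ()) R δ h1 hδ hh (hR i) x τ hτ
  have hPone : ∀ x τ, IsLift (w x) τ → τ < -R → Psi x τ = 1 := by
    intro x τ hl hτ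
    have h5 := hφ.norm () x τ hl
    rw [← h5]
    exact Finset.sum_congr rfl fun i _ =>
      (DV0_Psi_int α h (φ i ()) R δ h1 hδ hh (hR i) x τ hτ).symm
  -- the function `G`
  set G : X → ℝ → ℂ := fun x τ => (Psi x τ - (DV0_th τ : ℂ)) * (DV0_kap R τ : ℂ) with hG
  have hGcont : Continuous (fun p : X × ℝ => G p.1 p.2) := by
    have h5 : Continuous (fun p : X × ℝ => ((DV0_th p.2 : ℝ) : ℂ)) :=
      Complex.continuous_ofReal.comp (DV0_th_cont.comp continuous_snd)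
    have h6 : Continuous (fun p : X × ℝ => ((DV0_kap R p.2 : ℝ) : ℂ)) :=
      Complex.continuous_ofReal.comp ((DV0_kap_cont R).comp continuous_snd)
    exact (hPcont.sub h5).mul h6
  have hGl : ∀ x τ, IsLift (w x) τ → G x τ = Psi x τ - (DV0_th τ : ℂ) := by
    intro x τ hl
    simp only [hG]
    rcases le_or_gt |τ| R with h5 | h5
    · rw [DV0_kap_one R τ h5, Complex.ofReal_one, mul_one]
    · have h6 : Psi x τ - (DV0_th τ : ℂ) = 0 := by
        rcases lt_abs.1 h5 with h7 | h7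
        · rw [hPzero x τ h7, DV0_th_pos τ (by linarith), Complex.ofReal_zero, sub_zero]
        · rw [hPone x τ hl (by linarith), DV0_th_neg τ (by linarith), Complex.ofReal_one,
            sub_self]
      rw [h6, zero_mul]
  have hGfs : Continuous (fun x => fsum (w x) (G x)) := by
    refine h4 X w w.continuous hrot.1 G hGcont ⟨R + 1, fun x τ hτ => ?_⟩
    simp only [hG]
    rw [DV0_kap_zero R τ hτ, Complex.ofReal_zero, mul_zero]
  refine ⟨⟨fun x => -fsum (w x) (G x), hGfs.neg⟩, fun x => ?_⟩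
  show ∑ i, ecoef α (fun _ : Unit => w) (fun _ => h) φ i i 0 x - (h x : ℂ) =
    -fsum (w (α x)) (G (α x)) - -fsum (w x) (G x)
  obtain ⟨hl0, hfs⟩ := h3 (w x) (hrot.1 x)
  set t0 : ℝ := Complex.arg (w x) / (2 * Real.pi) with ht0
  obtain ⟨hlk, hsumx⟩ := hfs t0 hl0
  have hl1 : IsLift (w (α x)) (t0 + h x) := by
    have h5 := h2 X α w h hrot 1 x t0 hl0
    rwa [zpow_one, hc1] at h5
  obtain ⟨hlk', hsumx'⟩ := (h3 (w (α x)) (hrot.1 (α x))).2 (t0 + h x) hl1
  rw [hsumx, hsumx']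
  have e1 : ∀ k : ℤ, G x (t0 + k) = Psi x (t0 + k) - (DV0_th (t0 + k) : ℂ) := fun k =>
    hGl x _ ((hlk _).2 ⟨k, rfl⟩)
  have e2 : ∀ k : ℤ, G (α x) (t0 + h x + k) = Psi (α x) (t0 + h x + k) -
      (DV0_th (t0 + h x + k) : ℂ) := fun k => hGl (α x) _ ((hlk' _).2 ⟨k, rfl⟩)
  -- the coefficient
  have e3 : ∀ i, ecoef α (fun _ : Unit => w) (fun _ => h) φ i i 0 x =
      ∑' k : ℤ, φ i () x (t0 + k) ^ 2 := by
    intro i
    unfold ecoef
    rw [Finset.univ_unique, Finset.sum_singleton, hsumx]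
    refine tsum_congr fun k => ?_
    rw [neg_zero, hc0, add_zero, zpow_zero]
    show φ i () x (t0 + k) * φ i () x (t0 + k) = _
    rw [sq]
  have sφ : ∀ i, Summable (fun k : ℤ => φ i () x (t0 + k) ^ 2) := by
    intro i
    apply DV0_fin _ (R + |t0|)
    intro k hk
    rw [hR i x _ ?_]
    · norm_num
    · have h5 : |(k : ℝ)| ≤ |t0 + k| + |t0| := by
        have h6 := abs_sub (t0 + (k : ℝ)) t0
        rwa [add_sub_cancel_left] at h6
      linarith
  have sG : ∀ (y : X) (s : ℝ), Summable (fun k : ℤ => G y (s + k)) := by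
    intro y s
    apply DV0_fin _ (R + 1 + |s|)
    intro k hk
    simp only [hG]
    rw [DV0_kap_zero R _ ?_, Complex.ofReal_zero, mul_zero]
    have h5 : |(k : ℝ)| ≤ |s + k| + |s| := by
      have h6 := abs_sub (s + (k : ℝ)) s
      rwa [add_sub_cancel_left] at h6
    linarith
  rw [Finset.sum_congr rfl fun i _ => e3 i, ← Summable.tsum_finsetSum fun i _ => sφ i]
  have hth := DV0_thsum t0 (h x)
  have hA := (sG x t0).hasSum
  have hB := (sG (α x) (t0 + h x)).hasSum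
  have hC := hA.sub hB
  have hΦ : HasSum (fun k : ℤ => ∑ i, φ i () x (t0 + k) ^ 2)
      (∑' k : ℤ, ∑ i, φ i () x (t0 + k) ^ 2) := (summable_sum fun i _ => sφ i).hasSum
  have hD := hΦ.sub hth
  have hterm : ∀ k : ℤ, (∑ i, φ i () x (t0 + k) ^ 2) -
      ((DV0_th (t0 + k) : ℂ) - (DV0_th (t0 + h x + k) : ℂ)) =
      G x (t0 + k) - G (α x) (t0 + h x + k) := by
    intro k
    rw [e1, e2, hPshift x (t0 + k), show t0 + (k : ℝ) + h x = t0 + h x + k by ring]
    ring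
  have hE : HasSum (fun k : ℤ => G x (t0 + k) - G (α x) (t0 + h x + k))
      (∑' k : ℤ, ∑ i, φ i () x (t0 + k) ^ 2 - (h x : ℂ)) := by
    rw [← funext hterm]
    exact hD
  rw [hE.unique hC]
  ring

end Pool.Agent.CZ
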