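import Pool.Agent.helper37.CZ.Spec

/-!
# Project cz (MP_376aaf_an): row EQV
-/

set_option autoImplicit false

open scoped Matrix Topology ComplexConjugate
open Filter

namespace Pool.Agent.CZ

section

variable {A : Type} [CStarAlgebra A] {n m l : ℕ}

/-- the sum of the norms of the entries -/
noncomputable def EQV_nn (M : Matrix (Fin n) (Fin m) A) : ℝ := ∑ i, ∑ j, ‖M i j‖

theorem EQV_nonneg (M : Matrix (Fin n) (Fin m) A) : 0 ≤ EQV_nn M :=
  Finset.sum_nonneg fun _ _ => Finset.sum_nonneg fun _ _ => norm_nonneg _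

theorem EQV_le (M : Matrix (Fin n) (Fin m) A) (i : Fin n) (j : Fin m) : ‖M i j‖ ≤ EQV_nn M := by
  calc ‖M i j‖ ≤ ∑ j, ‖M i j‖ :=
        Finset.single_le_sum (f := fun j => ‖M i j‖) (fun _ _ => norm_nonneg _)
          (Finset.mem_univ j)
    _ ≤ EQV_nn M := Finset.single_le_sum (f := fun i => ∑ j, ‖M i j‖)
        (fun _ _ => Finset.sum_nonneg fun _ _ => norm_nonneg _) (Finset.mem_univ i)

theorem EQV_add (M N : Matrix (Fin n) (Fin m) A) : EQV_nn (M + N) ≤ EQV_nn M + EQV_nn N := by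
  unfold EQV_nn
  rw [← Finset.sum_add_distrib]
  refine Finset.sum_le_sum fun i _ => ?_
  rw [← Finset.sum_add_distrib]
  exact Finset.sum_le_sum fun j _ => norm_add_le _ _

theorem EQV_mul (M : Matrix (Fin n) (Fin m) A) (N : Matrix (Fin m) (Fin l) A) :
    EQV_nn (M * N) ≤ EQV_nn M * EQV_nn N := by
  have h1 : ∀ i : Fin n, ∀ j : Fin l, ‖(M * N) i j‖ ≤ ∑ k, ‖M i k‖ * ‖N k j‖ := by
    intro i j
    rw [Matrix.mul_apply]
    exact (norm_sum_le _ _).trans (Finset.sum_le_sum fun k _ => norm_mul_le _ _)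
  calc EQV_nn (M * N) ≤ ∑ i : Fin n, ∑ j : Fin l, ∑ k, ‖M i k‖ * ‖N k j‖ :=
        Finset.sum_le_sum fun i _ => Finset.sum_le_sum fun j _ => h1 i j
    _ = ∑ i : Fin n, ∑ k, ‖M i k‖ * ∑ j : Fin l, ‖N k j‖ := by
        refine Finset.sum_congr rfl fun i _ => ?_
        rw [Finset.sum_comm]
        refine Finset.sum_congr rfl fun k _ => ?_
        rw [Finset.mul_sum]
    _ ≤ ∑ i : Fin n, ∑ k, ‖M i k‖ * EQV_nn N := by
        refine Finset.sum_le_sum fun i _ => Finset.sum_le_sum fun k _ => ?_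
        apply mul_le_mul_of_nonneg_left _ (norm_nonneg _)
        exact Finset.single_le_sum (f := fun k => ∑ j, ‖N k j‖)
          (fun _ _ => Finset.sum_nonneg fun _ _ => norm_nonneg _) (Finset.mem_univ k)
    _ = EQV_nn M * EQV_nn N := by
        unfold EQV_nn
        rw [Finset.sum_mul]
        exact Finset.sum_congr rfl fun i _ => (Finset.sum_mul _ _ _).symm

theorem EQV_cont : Continuous (fun M : Matrix (Fin n) (Fin m) A => EQV_nn M) :=
  continuous_finsetSum _ fun i _ => continuous_finsetSum _ fun j _ =>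
    (continuous_id.matrix_elem i j).norm

theorem EQV_zero : EQV_nn (0 : Matrix (Fin n) (Fin m) A) = 0 := by
  simp [EQV_nn]

theorem EQV_eq_zero (M : Matrix (Fin n) (Fin m) A) (h : EQV_nn M ≤ 0) : M = 0 := by
  ext i j
  exact norm_le_zero_iff.1 ((EQV_le M i j).trans h)

/-- an idempotent matrix of norm `< 1` is `0` -/
theorem EQV_idem (p : Matrix (Fin n) (Fin n) A) (h : p * p = p) (h1 : EQV_nn p < 1) : p = 0 := by
  apply EQV_eq_zero
  have h2 := EQV_mul p p
  rw [h] at h2
  have h3 := EQV_nonneg p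
  nlinarith

end

section

variable {X : Type} [TopologicalSpace X] [CompactSpace X] {α : X ≃ₜ X} {A : Type} [CStarAlgebra A]
  {ι : C(X, ℂ) →⋆ₐ[ℂ] A} {u : unitary A} {c : ℤ → A →ₗ[ℂ] C(X, ℂ)} {n m l : ℕ}

theorem EQV_smul (h1 : SMA_stmt) (h2 : SMM_stmt) (hc : Cov α ι u c)
    (M : Matrix (Fin n) (Fin m) A) (N : Matrix (Fin m) (Fin l) A) (hM : SmM ι u M)
    (hN : SmM ι u N) : SmM ι u (M * N) := by
  intro i j
  obtain ⟨-, h0, -, ha, -⟩ := h1 X A ι u
  rw [Matrix.mul_apply]
  apply Finset.sum_induction _ (Sm ι u) ha h0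
  intro k _
  exact (h2 X α A ι u c hc _ _ (hM i k) (hN k j)).1

theorem EQV_ssub (h1 : SMA_stmt) (M N : Matrix (Fin n) (Fin m) A) (hM : SmM ι u M)
    (hN : SmM ι u N) : SmM ι u (M - N) := by
  intro i j
  obtain ⟨-, h0, -, ha, hs⟩ := h1 X A ι u
  have h3 := ha _ _ (hM i j) (hs (-1) _ (hN i j))
  rw [neg_one_smul, ← sub_eq_add_neg] at h3
  exact h3

theorem EQV_dense (h1 : SMA_stmt) (hc : Cov α ι u c) : Dense {a : A | Sm ι u a} := by
  refine hc.dense.mono ?_
  intro a ha
  obtain ⟨hm, h0, -, hadd, hs⟩ := h1 X A ι u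
  refine Submodule.span_induction (p := fun a _ => Sm ι u a) ?_ h0 (fun x y _ _ => hadd x y)
    (fun z x _ => hs z x) ha
  rintro x ⟨f, k, rfl⟩
  exact hm f k

theorem EQV_seq (h1 : SMA_stmt) (hc : Cov α ι u c) (M : Matrix (Fin n) (Fin m) A) :
    ∃ s : ℕ → Matrix (Fin n) (Fin m) A, (∀ k, SmM ι u (s k)) ∧ Tendsto s atTop (𝓝 M) := by
  have h2 : ∀ (i : Fin n) (j : Fin m), ∃ s : ℕ → A, (∀ k, Sm ι u (s k)) ∧
      Tendsto s atTop (𝓝 (M i j)) := fun i j => mem_closure_iff_seq_limit.1 (EQV_dense h1 hc (M i j))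
  choose s hs hs' using h2
  refine ⟨fun k => Matrix.of fun i j => s i j k, fun k i j => hs i j k, ?_⟩
  exact tendsto_pi_nhds.2 fun i => tendsto_pi_nhds.2 fun j => hs' i j

end

theorem EQV (h1 : SMA_stmt) (h2 : SMM_stmt) (h3 : NEU_stmt) : EQV_stmt := by
  intro X _ _ α A _ ι u c hc n m e f x y he hf hee hff hxy hyx
  obtain ⟨xs, hxs, hxt⟩ := EQV_seq h1 hc x
  obtain ⟨ys, hys, hyt⟩ := EQV_seq h1 hc y
  -- the approximations
  set X1 : Matrix (Fin n) (Fin m) A → Matrix (Fin n) (Fin m) A := fun z => e * z * f with hX1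
  set Y1 : Matrix (Fin m) (Fin n) A → Matrix (Fin m) (Fin n) A := fun z => f * z * e with hY1
  have cX : Continuous X1 := (continuous_const.matrix_mul continuous_id).matrix_mul continuous_const
  have cY : Continuous Y1 := (continuous_const.matrix_mul continuous_id).matrix_mul continuous_const
  have tX : Tendsto (fun k => X1 (xs k)) atTop (𝓝 (X1 x)) := (cX.tendsto x).comp hxt
  have tY : Tendsto (fun k => Y1 (ys k)) atTop (𝓝 (Y1 y)) := (cY.tendsto y).comp hyt
  have eXY : X1 x * Y1 y = e := by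
    calc e * x * f * (f * y * e) = e * x * (f * f) * y * e := by simp only [Matrix.mul_assoc]
      _ = e * x * (y * x) * y * e := by rw [hff, hyx]
      _ = e * (x * y) * (x * y) * e := by simp only [Matrix.mul_assoc]
      _ = e := by rw [hxy, hee, hee, hee]
  have eYX : Y1 y * X1 x = f := by
    calc f * y * e * (e * x * f) = f * y * (e * e) * x * f := by simp only [Matrix.mul_assoc]
      _ = f * y * (x * y) * x * f := by rw [hee, hxy]
      _ = f * (y * x) * (y * x) * f := by simp only [Matrix.mul_assoc]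
      _ = f := by rw [hyx, hff, hff, hff]
  have cR : Continuous (fun z : Matrix (Fin n) (Fin m) A × Matrix (Fin m) (Fin n) A =>
      e - z.1 * z.2) := continuous_const.sub (continuous_fst.matrix_mul continuous_snd)
  have cS : Continuous (fun z : Matrix (Fin n) (Fin m) A × Matrix (Fin m) (Fin n) A =>
      z.2 * z.1 - f) := (continuous_snd.matrix_mul continuous_fst).sub continuous_const
  have tXY : Tendsto (fun k => (X1 (xs k), Y1 (ys k))) atTop (𝓝 (X1 x, Y1 y)) :=
    tX.prodMk_nhds tY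
  have tR : Tendsto (fun k => e - X1 (xs k) * Y1 (ys k)) atTop (𝓝 0) := by
    have h4 := (cR.tendsto (X1 x, Y1 y)).comp tXY
    simp only [eXY, sub_self] at h4
    exact h4
  have tS : Tendsto (fun k => Y1 (ys k) * X1 (xs k) - f) atTop (𝓝 0) := by
    have h4 := (cS.tendsto (X1 x, Y1 y)).comp tXY
    simp only [eYX, sub_self] at h4
    exact h4
  have nR : Tendsto (fun k => EQV_nn (e - X1 (xs k) * Y1 (ys k))) atTop (𝓝 0) := by
    have h4 := (EQV_cont.tendsto (0 : Matrix (Fin n) (Fin n) A)).comp tR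
    rw [EQV_zero] at h4
    exact h4
  have nS : Tendsto (fun k => EQV_nn (Y1 (ys k) * X1 (xs k) - f)) atTop (𝓝 0) := by
    have h4 := (EQV_cont.tendsto (0 : Matrix (Fin m) (Fin m) A)).comp tS
    rw [EQV_zero] at h4
    exact h4
  have nX : Tendsto (fun k => EQV_nn (X1 (xs k))) atTop (𝓝 (EQV_nn (X1 x))) :=
    (EQV_cont.tendsto (X1 x)).comp tX
  have nY : Tendsto (fun k => EQV_nn (Y1 (ys k))) atTop (𝓝 (EQV_nn (Y1 y))) :=
    (EQV_cont.tendsto (Y1 y)).comp tY
  set c1 : ℝ := 2 * EQV_nn (1 : Matrix (Fin n) (Fin n) A) with hc1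
  have hc10 : 0 ≤ c1 := mul_nonneg (by norm_num) (EQV_nonneg _)
  have tT : Tendsto (fun k => EQV_nn (Y1 (ys k) * X1 (xs k) - f) +
      EQV_nn (Y1 (ys k)) * (EQV_nn (e - X1 (xs k) * Y1 (ys k)) * c1) * EQV_nn (X1 (xs k)))
      atTop (𝓝 0) := by
    have h4 := nS.add ((nY.mul (nR.mul_const c1)).mul nX)
    simp only [zero_mul, mul_zero, add_zero] at h4
    exact h4
  have hev := (tT.eventually_lt_const one_pos).and
    ((nR.eventually_lt_const (show (0 : ℝ) < 1 / (2 * (n + 1)) by positivity)).and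
      (nR.eventually_lt_const (show (0 : ℝ) < 1 / 2 by norm_num)))
  obtain ⟨k, hk1, hk2, hk3⟩ := hev.exists
  set x1 := X1 (xs k) with hx1
  set y1 := Y1 (ys k) with hy1
  set r := e - x1 * y1 with hr
  have sx1 : SmM ι u x1 := EQV_smul h1 h2 hc _ _ (EQV_smul h1 h2 hc _ _ he (hxs k)) hf
  have sy1 : SmM ι u y1 := EQV_smul h1 h2 hc _ _ (EQV_smul h1 h2 hc _ _ hf (hys k)) he
  have sr : SmM ι u r := EQV_ssub h1 _ _ he (EQV_smul h1 h2 hc _ _ sx1 sy1)
  obtain ⟨w, sw, hw1, hw2⟩ := h3 X α A ι u c hc n r sr (by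
    intro i j
    have h4 := (EQV_le r i j).trans hk2.le
    have h5 : (0 : ℝ) ≤ n := Nat.cast_nonneg n
    calc (n : ℝ) * ‖r i j‖ ≤ n * (1 / (2 * (n + 1))) := mul_le_mul_of_nonneg_left h4 h5
      _ ≤ 1 / 2 := by
        rw [mul_one_div, div_le_div_iff₀ (by positivity) (by norm_num)]
        nlinarith)
  have ex1 : e * x1 = x1 := by
    calc e * (e * xs k * f) = e * e * xs k * f := by simp only [Matrix.mul_assoc]
      _ = e * xs k * f := by rw [hee]
  have x1f : x1 * f = x1 := by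
    calc e * xs k * f * f = e * xs k * (f * f) := by simp only [Matrix.mul_assoc]
      _ = e * xs k * f := by rw [hff]
  have fy1 : f * y1 = y1 := by
    calc f * (f * ys k * e) = f * f * ys k * e := by simp only [Matrix.mul_assoc]
      _ = f * ys k * e := by rw [hff]
  have er : e * r = r := by
    rw [hr, Matrix.mul_sub, hee, ← Matrix.mul_assoc, ex1]
  have hxy2 : x1 * (y1 * w) = e := by
    have h4 : x1 * y1 = e - r := by rw [hr]; abel
    rw [← Matrix.mul_assoc, h4]
    have h5 : e - r = e * (1 - r) := by rw [Matrix.mul_sub, er, Matrix.mul_one]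
    rw [h5, Matrix.mul_assoc, hw2, Matrix.mul_one]
  set g := y1 * w * x1 with hg
  have hgg : g * g = g := by
    calc y1 * w * x1 * (y1 * w * x1) = y1 * w * (x1 * (y1 * w)) * x1 := by
          simp only [Matrix.mul_assoc]
      _ = y1 * w * e * x1 := by rw [hxy2]
      _ = y1 * w * (e * x1) := by simp only [Matrix.mul_assoc]
      _ = y1 * w * x1 := by rw [ex1]
  have hfg : f * g = g := by
    calc f * (y1 * w * x1) = f * y1 * w * x1 := by simp only [Matrix.mul_assoc]
      _ = y1 * w * x1 := by rw [fy1]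
  have hgf : g * f = g := by
    calc y1 * w * x1 * f = y1 * w * (x1 * f) := by simp only [Matrix.mul_assoc]
      _ = y1 * w * x1 := by rw [x1f]
  have hgfe : g = f := by
    have h4 : (g - f) * (g - f) = -(g - f) := by
      rw [Matrix.sub_mul, Matrix.mul_sub, Matrix.mul_sub, hgg, hgf, hfg, hff]
      abel
    have h5 : (f - g) * (f - g) = f - g := by
      rw [Matrix.sub_mul, Matrix.mul_sub, Matrix.mul_sub, hgg, hgf, hfg, hff]
      abel
    have hwr : w - 1 = r * w := by
      have h6 : (1 - r) * w = w - r * w := by rw [Matrix.sub_mul, Matrix.one_mul]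
      rw [h6] at hw2
      rw [← hw2]
      abel
    have hwb : EQV_nn w ≤ c1 := by
      have h6 : w = 1 + r * w := by rw [← hwr]; abel
      have h7 : EQV_nn w ≤ EQV_nn (1 : Matrix (Fin n) (Fin n) A) + EQV_nn r * EQV_nn w := by
        calc EQV_nn w = EQV_nn (1 + r * w) := by rw [← h6]
          _ ≤ EQV_nn (1 : Matrix (Fin n) (Fin n) A) + EQV_nn (r * w) := EQV_add _ _
          _ ≤ _ := by
            have := EQV_mul r w
            linarith
      have h8 := EQV_nonneg w
      rw [hc1]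
      nlinarith
    have h6 : EQV_nn (f - g) < 1 := by
      have h7 : g - f = (y1 * x1 - f) + y1 * (w - 1) * x1 := by
        rw [hg, Matrix.mul_sub, Matrix.mul_one, Matrix.sub_mul]
        abel
      have h8 : EQV_nn (f - g) = EQV_nn (g - f) := by
        unfold EQV_nn
        refine Finset.sum_congr rfl fun i _ => Finset.sum_congr rfl fun j _ => ?_
        rw [Matrix.sub_apply, Matrix.sub_apply, norm_sub_rev]
      rw [h8, h7]
      refine lt_of_le_of_lt ?_ hk1
      refine (EQV_add _ _).trans (add_le_add le_rfl ?_)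
      calc EQV_nn (y1 * (w - 1) * x1) ≤ EQV_nn (y1 * (w - 1)) * EQV_nn x1 := EQV_mul _ _
        _ ≤ EQV_nn y1 * (EQV_nn r * c1) * EQV_nn x1 := by
          apply mul_le_mul_of_nonneg_right _ (EQV_nonneg _)
          refine (EQV_mul _ _).trans (mul_le_mul_of_nonneg_left ?_ (EQV_nonneg _))
          rw [hwr]
          exact (EQV_mul _ _).trans (mul_le_mul_of_nonneg_left hwb (EQV_nonneg _))
    have h7 := EQV_idem (f - g) h5 h6
    exact (sub_eq_zero.1 h7).symm
  exact ⟨x1, y1 * w, sx1, EQV_smul h1 h2 hc _ _ sy1 sw, hxy2, hgfe⟩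

end Pool.Agent.CZ
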