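import Pool.Agent.helper37.CZ.Spec

/-!
# Project cz (MP_376aaf_an): row EXB
-/

set_option autoImplicit false

open scoped Matrix Topology ComplexConjugate
open Filter

namespace Pool.Agent.CZ

/-- the exponential series of a matrix, entrywise -/
theorem EXB_mat {n : Type} [Fintype n] [DecidableEq n] (M : Matrix n n ℂ) (i j : n) :
    HasSum (fun m : ℕ => ((m.factorial : ℂ)⁻¹) * (M ^ m) i j) (NormedSpace.exp M i j) := by
  let _ : NormedRing (Matrix n n ℂ) := Matrix.linftyOpNormedRing
  let _ : NormedAlgebra ℂ (Matrix n n ℂ) := Matrix.linftyOpNormedAlgebra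
  have h := NormedSpace.exp_series_hasSum_exp' (𝕂 := ℂ) M
  have h1 := Pi.hasSum.1 (Pi.hasSum.1 h i) j
  exact h1

theorem EXB_sum {k N : ℕ} (a : Matrix (Fin N × Fin k) (Fin N × Fin k) ℂ) (z : ℂ)
    (p q : ℕ × Fin k) :
    HasSum (fun m : ℕ => z ^ m / m.factorial * ent (a ^ m) p q)
      (ent (NormedSpace.exp (z • a)) p q) := by
  unfold ent
  by_cases h : p.1 < N ∧ q.1 < N
  · simp only [dif_pos h]
    have h1 := EXB_mat (z • a) (⟨p.1, h.1⟩, p.2) (⟨q.1, h.2⟩, q.2)
    have e : (fun m : ℕ => z ^ m / m.factorial * (a ^ m) (⟨p.1, h.1⟩, p.2) (⟨q.1, h.2⟩, q.2)) =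
        fun m : ℕ => ((m.factorial : ℂ)⁻¹) *
          ((z • a) ^ m) (⟨p.1, h.1⟩, p.2) (⟨q.1, h.2⟩, q.2) := by
      funext m
      rw [smul_pow, Matrix.smul_apply, smul_eq_mul]
      ring
    rw [e]
    exact h1
  · simp only [dif_neg h, mul_zero]
    exact hasSum_zero

theorem EXB_bd (t : ℕ → ℂ) (S : ℂ) (B c : ℝ) (h : HasSum t S)
    (hb : ∀ m, ‖t m‖ ≤ B * (c ^ m / m.factorial)) : ‖S‖ ≤ B * Real.exp c := by
  have h1 : HasSum (fun m : ℕ => c ^ m / m.factorial) (Real.exp c) := by
    rw [Real.exp_eq_exp_ℝ]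
    exact NormedSpace.expSeries_div_hasSum_exp c
  exact h.norm_le_of_bounded (h1.mul_left B) hb

theorem EXB_term (z w : ℂ) (K r : ℝ) (m : ℕ) (hz : ‖z‖ = 2 * Real.pi) (hw : ‖w‖ ≤ K ^ m * r) :
    ‖z ^ m / m.factorial * w‖ ≤ r * ((2 * Real.pi * K) ^ m / m.factorial) := by
  rw [norm_mul, norm_div, norm_pow, hz, Complex.norm_natCast]
  have h1 : 0 ≤ (2 * Real.pi) ^ m / (m.factorial : ℝ) := by positivity
  calc (2 * Real.pi) ^ m / (m.factorial : ℝ) * ‖w‖ ≤ (2 * Real.pi) ^ m / (m.factorial : ℝ) *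
        (K ^ m * r) := mul_le_mul_of_nonneg_left hw h1
    _ = r * ((2 * Real.pi * K) ^ m / m.factorial) := by
      rw [mul_pow]
      ring

theorem EXB (h1 : RWB_stmt) (h2 : LC1_stmt) (h3 : LC2_stmt) (h4 : LC3_stmt) : EXB_stmt := by
  intro X _ α k E hE
  obtain ⟨ρ, K, hR⟩ := h1 X α k E hE
  obtain ⟨hρ0, hρ1, hK, -, -⟩ := id hR
  refine ⟨Real.exp (2 * Real.pi * K), ρ, hρ0, hρ1, (Real.exp_pos _).le, fun z hz => ?_⟩
  have hzn : ‖z‖ = 2 * Real.pi := by
    have h5 : ‖(2 * Real.pi * Complex.I : ℂ)‖ = 2 * Real.pi := by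
      rw [norm_mul, norm_mul, Complex.norm_I, Complex.norm_real,
        Real.norm_of_nonneg Real.pi_pos.le]
      norm_num
    rcases hz with rfl | rfl
    · exact h5
    · rw [norm_neg, h5]
  have hze : Complex.exp z = 1 := by
    rcases hz with rfl | rfl
    · exact Complex.exp_two_pi_mul_I
    · rw [Complex.exp_neg, Complex.exp_two_pi_mul_I, inv_one]
  have hz1 : HasSum (fun m : ℕ => z ^ m / m.factorial) 1 := by
    rw [← hze, Complex.exp_eq_exp_ℂ]
    exact NormedSpace.expSeries_div_hasSum_exp z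
  refine ⟨fun x N p q hp hq => ?_, fun x M N p q hMN hp hq => ⟨?_, ?_⟩⟩
  · have hδ : ent (aN E x N ^ 0) p q = if p = q then 1 else 0 := by
      rw [pow_zero]
      unfold ent
      rw [dif_pos ⟨hp, hq⟩, Matrix.one_apply]
      by_cases hpq : p = q
      · subst hpq
        simp
      · rw [if_neg, if_neg hpq]
        intro h
        apply hpq
        have h5 := congrArg Prod.fst h
        have h6 := congrArg Prod.snd h
        simp only [Fin.mk.injEq] at h5
        exact Prod.ext h5 h6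
    set Epq : ℂ := E x ((p.1 : ℤ), p.2) ((q.1 : ℤ), q.2) with hEpq
    set δ : ℂ := if p = q then 1 else 0 with hδd
    have hV := EXB_sum (aN E x N) z p q
    constructor
    · -- first bound
      have hs : HasSum (fun m : ℕ => z ^ m / m.factorial * (ent (aN E x N ^ m) p q - Epq))
          (ent (vN E x N z) p q - Epq) := by
        have h5 := hV.sub (hz1.mul_right Epq)
        rw [one_mul] at h5
        have e : (fun m : ℕ => z ^ m / m.factorial * (ent (aN E x N ^ m) p q - Epq)) =
            fun m : ℕ => z ^ m / m.factorial * ent (aN E x N ^ m) p q -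
              z ^ m / m.factorial * Epq := by
          funext m
          ring
        rw [e]
        exact h5
      have hs0 := hasSum_ite_eq (0 : ℕ) (δ - Epq)
      have hd := hs.sub hs0
      have e2 : ent (vN E x N z) p q - Epq - (δ - Epq) = ent (vN E x N z) p q - δ := by ring
      rw [e2] at hd
      rw [mul_comm]
      refine EXB_bd _ _ _ _ hd fun m => ?_
      rcases Nat.eq_zero_or_pos m with rfl | hm
      · rw [if_pos rfl, hδ]
        simp only [pow_zero, Nat.factorial_zero, Nat.cast_one, div_one, one_mul, sub_self,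
          norm_zero, mul_one]
        positivity
      · rw [if_neg hm.ne', sub_zero]
        exact EXB_term z _ K _ m hzn ((h2 X α k E ρ K hE hR x N m p q hp hq).1 hm)
    · have hs0 := hasSum_ite_eq (0 : ℕ) δ
      have hd := hV.sub hs0
      rw [mul_comm]
      refine EXB_bd _ _ _ _ hd fun m => ?_
      rcases Nat.eq_zero_or_pos m with rfl | hm
      · rw [if_pos rfl, hδ]
        simp only [pow_zero, Nat.factorial_zero, Nat.cast_one, div_one, one_mul, sub_self,
          norm_zero, mul_one]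
        positivity
      · rw [if_neg hm.ne', sub_zero]
        exact EXB_term z _ K _ m hzn (h2 X α k E ρ K hE hR x N m p q hp hq).2
  · have hd := (EXB_sum (aN E x N) z p q).sub (EXB_sum (aN E x M) z p q)
    rw [mul_comm]
    refine EXB_bd _ _ _ _ hd fun m => ?_
    rw [← mul_sub]
    exact EXB_term z _ K _ m hzn (h3 X α k E ρ K hE hR x M N m p q hMN hp hq)
  · have hd := (EXB_sum (aN E x N) z (N - M + p.1, p.2) (N - M + q.1, q.2)).sub
      (EXB_sum (aN E ((α ^ ((N - M : ℕ) : ℤ)) x) M) z p q)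
    rw [mul_comm]
    refine EXB_bd _ _ _ _ hd fun m => ?_
    rw [← mul_sub]
    exact EXB_term z _ K _ m hzn (h4 X α k E ρ K hE hR x M N m p q hMN hp hq)

end Pool.Agent.CZ
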