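import Pool.Agent.helper37.CZ.Spec

/-!
# Project cz (MP_376aaf_an): row LC1
-/

set_option autoImplicit false

open scoped Matrix Topology ComplexConjugate
open Filter

namespace Pool.Agent.CZ

/-- the window in `ℤ × Fin k` -/
def LC1_i (N k : ℕ) : Fin N × Fin k ↪ ℤ × Fin k :=
  ⟨fun R => (((R.1 : ℕ) : ℤ), R.2), by
    intro R S h
    simp only [Prod.mk.injEq, Nat.cast_inj] at h
    exact Prod.ext (Fin.ext h.1) h.2⟩

theorem LC1_i_apply {N k : ℕ} (R : Fin N × Fin k) : LC1_i N k R = (((R.1 : ℕ) : ℤ), R.2) := rfl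

/-- `ρ^b ≤ ρ^a ρ^(-c)` if `a ≤ b + c` -/
theorem LC1_pow {ρ : ℝ} (h0 : 0 < ρ) (h1 : ρ < 1) (a b c : ℕ) (h : a ≤ b + c) :
    ρ ^ b ≤ (ρ⁻¹) ^ c * ρ ^ a := by
  rw [inv_pow, ← div_eq_inv_mul, le_div_iff₀ (by positivity), ← pow_add]
  exact pow_le_pow_of_le_one h0.le h1.le h

theorem LC1_second {X : Type} {k : ℕ} (E : X → ℤ × Fin k → ℤ × Fin k → ℂ) (ρ K : ℝ)
    (hR : RowB E ρ K) (x : X) (N j : ℕ) : ∀ P Q : Fin N × Fin k,
    ‖(aN E x N ^ j) P Q‖ ≤ K ^ j * ρ ^ (nd P.1 Q.1) := by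
  obtain ⟨h0, h1, hK, hE, hrow⟩ := hR
  induction j with
  | zero =>
    intro P Q
    rw [pow_zero, pow_zero, one_mul, Matrix.one_apply]
    by_cases h : P = Q
    · subst h
      simp [nd]
    · rw [if_neg h, norm_zero]
      positivity
  | succ j ih =>
    intro P Q
    rw [pow_succ', Matrix.mul_apply]
    have h2 : ∀ R : Fin N × Fin k, ‖aN E x N P R * (aN E x N ^ j) R Q‖ ≤
        ‖E x (LC1_i N k P) (LC1_i N k R)‖ *
          (ρ⁻¹) ^ ((LC1_i N k P).1 - (LC1_i N k R).1).natAbs * (K ^ j * ρ ^ (nd P.1 Q.1)) := by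
      intro R
      rw [norm_mul, mul_assoc]
      apply mul_le_mul_of_nonneg_left _ (norm_nonneg _)
      refine (ih R Q).trans ?_
      have h3 := LC1_pow h0 h1 (nd P.1 Q.1) (nd R.1 Q.1)
        ((LC1_i N k P).1 - (LC1_i N k R).1).natAbs (by
          rw [LC1_i_apply, LC1_i_apply]
          unfold nd
          omega)
      calc K ^ j * ρ ^ (nd R.1 Q.1) ≤ K ^ j * ((ρ⁻¹) ^ ((LC1_i N k P).1 -
            (LC1_i N k R).1).natAbs * ρ ^ (nd P.1 Q.1)) :=
            mul_le_mul_of_nonneg_left h3 (by positivity)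
        _ = (ρ⁻¹) ^ ((LC1_i N k P).1 - (LC1_i N k R).1).natAbs *
            (K ^ j * ρ ^ (nd P.1 Q.1)) := by ring
    have h4 := hrow x (LC1_i N k P) (Finset.univ.map (LC1_i N k))
    rw [Finset.sum_map] at h4
    calc ‖∑ R, aN E x N P R * (aN E x N ^ j) R Q‖
        ≤ ∑ R, ‖aN E x N P R * (aN E x N ^ j) R Q‖ := norm_sum_le _ _
      _ ≤ ∑ R, ‖E x (LC1_i N k P) (LC1_i N k R)‖ *
          (ρ⁻¹) ^ ((LC1_i N k P).1 - (LC1_i N k R).1).natAbs * (K ^ j * ρ ^ (nd P.1 Q.1)) :=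
          Finset.sum_le_sum fun R _ => h2 R
      _ = (∑ R, ‖E x (LC1_i N k P) (LC1_i N k R)‖ *
          (ρ⁻¹) ^ ((LC1_i N k P).1 - (LC1_i N k R).1).natAbs) * (K ^ j * ρ ^ (nd P.1 Q.1)) := by
          rw [Finset.sum_mul]
      _ ≤ K * (K ^ j * ρ ^ (nd P.1 Q.1)) := mul_le_mul_of_nonneg_right h4 (by positivity)
      _ = K ^ (j + 1) * ρ ^ (nd P.1 Q.1) := by ring

theorem LC1_first {X : Type} [TopologicalSpace X] (α : X ≃ₜ X) {k : ℕ}
    (E : X → ℤ × Fin k → ℤ × Fin k → ℂ) (ρ K : ℝ) (hEk : Ker α k E)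
    (hR : RowB E ρ K) (x : X) (N j : ℕ) : ∀ P Q : Fin N × Fin k,
    ‖(aN E x N ^ (j + 1)) P Q - E x (LC1_i N k P) (LC1_i N k Q)‖ ≤
      K ^ (j + 1) * ρ ^ (dd N P.1 + dd N Q.1) := by
  obtain ⟨h0, h1, hK, hE, hrow⟩ := hR
  have hK0 : 0 < K := by linarith
  induction j with
  | zero =>
    intro P Q
    rw [zero_add, pow_one, pow_one]
    have h2 : aN E x N P Q - E x (LC1_i N k P) (LC1_i N k Q) = 0 := sub_self _
    rw [h2, norm_zero]
    positivity
  | succ j ih =>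
    intro P Q
    set p := LC1_i N k P with hp
    set q := LC1_i N k Q with hq
    set B : ℝ := K ^ (j + 1) * ρ ^ (dd N P.1 + dd N Q.1) with hB
    -- the two series
    have hf : HasSum (fun r => E x p r * E x r q) (E x p q) := hEk.idem x p q
    set h : ℤ × Fin k → ℂ := fun r => if hr : 0 ≤ r.1 ∧ r.1 < N then
      E x p r * (aN E x N ^ (j + 1)) (⟨r.1.toNat, by omega⟩, r.2) Q else 0 with hh
    have hhi : ∀ R : Fin N × Fin k, h (LC1_i N k R) =
        E x p (LC1_i N k R) * (aN E x N ^ (j + 1)) R Q := by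
      intro R
      rw [hh]
      simp only [LC1_i_apply]
      rw [dif_pos ⟨by omega, by have := R.1.2; omega⟩]
      rfl
    have hsum : HasSum h ((aN E x N ^ (j + 2)) P Q) := by
      have h3 : HasSum h (∑ r ∈ Finset.univ.map (LC1_i N k), h r) := by
        apply hasSum_sum_of_ne_finset_zero
        intro r hr
        rw [hh]
        simp only
        rw [dif_neg]
        rintro ⟨h4, h5⟩
        apply hr
        rw [Finset.mem_map]
        refine ⟨(⟨r.1.toNat, by omega⟩, r.2), Finset.mem_univ _, ?_⟩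
        rw [LC1_i_apply]
        apply Prod.ext
        · exact Int.toNat_of_nonneg h4
        · rfl
      rw [Finset.sum_map] at h3
      rw [show j + 2 = (j + 1) + 1 from rfl, pow_succ', Matrix.mul_apply]
      rw [Finset.sum_congr rfl fun R _ => hhi R] at h3
      exact h3
    have hg := hsum.sub hf
    have hbd : ∀ r : ℤ × Fin k, ‖h r - E x p r * E x r q‖ ≤
        ‖E x p r‖ * (ρ⁻¹) ^ (p.1 - r.1).natAbs * B := by
      intro r
      by_cases hr : 0 ≤ r.1 ∧ r.1 < N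
      · obtain ⟨R, rfl⟩ : ∃ R : Fin N × Fin k, LC1_i N k R = r := by
          refine ⟨(⟨r.1.toNat, by omega⟩, r.2), ?_⟩
          rw [LC1_i_apply]
          apply Prod.ext
          · exact Int.toNat_of_nonneg hr.1
          · rfl
        rw [hhi, ← mul_sub, norm_mul, mul_assoc]
        apply mul_le_mul_of_nonneg_left _ (norm_nonneg _)
        refine (ih R Q).trans ?_
        have h3 := LC1_pow h0 h1 (dd N P.1) (dd N R.1)
          (p.1 - (LC1_i N k R).1).natAbs (by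
            rw [hp, LC1_i_apply, LC1_i_apply]
            unfold dd
            have := P.1.2
            have := R.1.2
            omega)
        calc K ^ (j + 1) * ρ ^ (dd N R.1 + dd N Q.1)
            = K ^ (j + 1) * ρ ^ (dd N Q.1) * ρ ^ (dd N R.1) := by rw [pow_add]; ring
          _ ≤ K ^ (j + 1) * ρ ^ (dd N Q.1) * ((ρ⁻¹) ^ (p.1 - (LC1_i N k R).1).natAbs *
              ρ ^ (dd N P.1)) := mul_le_mul_of_nonneg_left h3 (by positivity)
          _ = (ρ⁻¹) ^ (p.1 - (LC1_i N k R).1).natAbs * B := by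
              rw [hB, pow_add ρ (dd N P.1)]
              ring
      · have h3 : h r = 0 := by
          rw [hh]
          exact dif_neg hr
        rw [h3, zero_sub, norm_neg, norm_mul, mul_assoc]
        apply mul_le_mul_of_nonneg_left _ (norm_nonneg _)
        refine (hE x r q).trans ?_
        have hP := P.1.2
        have hQ := Q.1.2
        have h4 : dd N Q.1 ≤ (r.1 - q.1).natAbs := by
          rw [hq, LC1_i_apply]
          unfold dd
          dsimp only
          omega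
        have h5 : dd N P.1 ≤ (p.1 - r.1).natAbs := by
          rw [hp, LC1_i_apply]
          unfold dd
          dsimp only
          omega
        have h6 : ρ ^ (r.1 - q.1).natAbs ≤ ρ ^ (dd N Q.1) := pow_le_pow_of_le_one h0.le h1.le h4
        have h7 := LC1_pow h0 h1 (dd N P.1) 0 (p.1 - r.1).natAbs (by omega)
        rw [pow_zero] at h7
        have h8 : K ≤ K ^ (j + 1) := by
          calc K = K ^ 1 := (pow_one K).symm
            _ ≤ K ^ (j + 1) := pow_le_pow_right₀ hK (by omega)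
        calc K * ρ ^ (r.1 - q.1).natAbs ≤ K ^ (j + 1) * ρ ^ (dd N Q.1) :=
              mul_le_mul h8 h6 (by positivity) (by positivity)
          _ ≤ (K ^ (j + 1) * ρ ^ (dd N Q.1)) * ((ρ⁻¹) ^ (p.1 - r.1).natAbs * ρ ^ (dd N P.1)) :=
              le_mul_of_one_le_right (by positivity) h7
          _ = (ρ⁻¹) ^ (p.1 - r.1).natAbs * B := by
              rw [hB, pow_add ρ (dd N P.1)]
              ring
    have hB0 : 0 ≤ B := by positivity
    have hlim : ∀ F : Finset (ℤ × Fin k), ‖∑ r ∈ F, (h r - E x p r * E x r q)‖ ≤ K * B := by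
      intro F
      calc ‖∑ r ∈ F, (h r - E x p r * E x r q)‖
          ≤ ∑ r ∈ F, ‖h r - E x p r * E x r q‖ := norm_sum_le _ _
        _ ≤ ∑ r ∈ F, ‖E x p r‖ * (ρ⁻¹) ^ (p.1 - r.1).natAbs * B :=
            Finset.sum_le_sum fun r _ => hbd r
        _ = (∑ r ∈ F, ‖E x p r‖ * (ρ⁻¹) ^ (p.1 - r.1).natAbs) * B := by rw [Finset.sum_mul]
        _ ≤ K * B := mul_le_mul_of_nonneg_right (hrow x p F) hB0
    have h9 : ‖(aN E x N ^ (j + 2)) P Q - E x p q‖ ≤ K * B :=
      le_of_tendsto hg.norm (Eventually.of_forall hlim)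
    refine h9.trans_eq ?_
    rw [hB]
    ring

theorem LC1 : LC1_stmt := by
  intro X _ α k E ρ K hE hR x N j p q hp hq
  have h1 : ∀ m : ℕ, ent (aN E x N ^ m) p q = (aN E x N ^ m) (⟨p.1, hp⟩, p.2) (⟨q.1, hq⟩, q.2) :=
    fun m => dif_pos ⟨hp, hq⟩
  constructor
  · intro hj
    obtain ⟨i, rfl⟩ : ∃ i, j = i + 1 := ⟨j - 1, by omega⟩
    rw [h1]
    exact LC1_first α E ρ K hE hR x N i (⟨p.1, hp⟩, p.2) (⟨q.1, hq⟩, q.2)
  · rw [h1]
    exact LC1_second E ρ K hR x N j (⟨p.1, hp⟩, p.2) (⟨q.1, hq⟩, q.2)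

end Pool.Agent.CZ
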