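import Pool.Agent.helper37.CZ.SpecD

/-!
# Project cz (MP_376aaf_an): row POS
-/

set_option autoImplicit false

open scoped Matrix Topology ComplexConjugate ComplexOrder
open Filter

namespace Pool.Agent.CZ

theorem POS : POS_stmt := by
  intro A _ t
  let _ : PartialOrder A := CStarAlgebra.spectralOrder A
  have _ : StarOrderedRing A := CStarAlgebra.spectralOrderedRing A
  have h : ∀ x : A, 0 ≤ x → 0 ≤ t.τ x := by
    intro x hx
    obtain ⟨c, rfl⟩ := (CStarAlgebra.nonneg_iff_eq_star_mul_self).1 hx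
    obtain ⟨h1, h2⟩ := t.pos c
    exact Complex.nonneg_iff.2 ⟨h1, h2.symm⟩
  obtain ⟨C, hC⟩ := (PositiveLinearMap.mk₀ t.τ h).exists_norm_apply_le
  exact ⟨C, fun a => hC a⟩

end Pool.Agent.CZ
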