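import Pool.Agent.helper37.CZ.Spec

/-!
# Project cz (MP_376aaf_an): row SMM
-/

set_option autoImplicit false

open scoped Matrix Topology ComplexConjugate
open Filter

namespace Pool.Agent.CZ

theorem SMM_exp (s : ℝ) (hs : 0 < s) : Summable (fun j : ℤ => Real.exp (-(s * |(j : ℝ)|))) := by
  have h1 : Summable (fun n : ℕ => Real.exp (-(s * (n : ℝ)))) := by
    have h2 : Summable (fun n : ℕ => (Real.exp (-s)) ^ n) :=
      summable_geometric_of_lt_one (Real.exp_pos _).le (Real.exp_lt_one_iff.2 (by linarith))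
    refine h2.congr fun n => ?_
    rw [← Real.exp_nat_mul]
    congr 1
    ring
  apply Summable.of_nat_of_neg
  · refine h1.congr fun n => ?_
    rw [Int.cast_natCast, abs_of_nonneg (Nat.cast_nonneg n)]
  · refine h1.congr fun n => ?_
    rw [Int.cast_neg, Int.cast_natCast, abs_neg, abs_of_nonneg (Nat.cast_nonneg n)]

section

variable {X : Type} [TopologicalSpace X] [CompactSpace X] {A : Type} [CStarAlgebra A]

theorem SMM_up (u : unitary A) (m l : ℤ) : up u m * up u l = up u (m + l) := by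
  unfold up
  rw [zpow_add]
  rfl

theorem SMM_iota (ι : C(X, ℂ) →⋆ₐ[ℂ] A) (f : C(X, ℂ)) : ‖ι f‖ ≤ ‖f‖ :=
  NonUnitalStarAlgHom.norm_apply_le ι f

theorem SMM_cont (ι : C(X, ℂ) →⋆ₐ[ℂ] A) : Continuous ι :=
  AddMonoidHomClass.continuous_of_bound ι 1 fun x => by
    rw [one_mul]
    exact SMM_iota ι x

theorem SMM_norm (ι : C(X, ℂ) →⋆ₐ[ℂ] A) (u : unitary A) (f : C(X, ℂ)) (n : ℤ) :
    ‖ι f * up u n‖ ≤ ‖f‖ := by
  unfold up
  rw [CStarRing.norm_mul_coe_unitary]
  exact SMM_iota ι f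

theorem SMM_dec {s t : ℝ} {f : ℤ → C(X, ℂ)} (hst : s ≤ t) (h : Dec t f) :
    ∃ C : ℝ, 0 ≤ C ∧ ∀ j, ‖f j‖ ≤ C * Real.exp (-(s * |(j : ℝ)|)) := by
  obtain ⟨C, hC⟩ := h
  have h0 : 0 ≤ C := by
    have h1 := (norm_nonneg _).trans (hC 0)
    simpa using h1
  refine ⟨C, h0, fun j => (hC j).trans (mul_le_mul_of_nonneg_left ?_ h0)⟩
  apply Real.exp_le_exp.2
  have := abs_nonneg (j : ℝ)
  nlinarith

theorem SMM_sh (α : X ≃ₜ X) (n : ℤ) (f : C(X, ℂ)) : ‖sh α n f‖ ≤ ‖f‖ := by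
  rw [ContinuousMap.norm_le _ (norm_nonneg _)]
  intro x
  exact f.norm_coe_le_norm _

end

theorem SMM (h1 : CEX_stmt) (h2 : SMC_stmt) : SMM_stmt := by
  intro X _ _ α A _ ι u c hc a b ha hb
  obtain ⟨s1, hs1, f, hf, hfa⟩ := ha
  obtain ⟨s2, hs2, g, hg, hgb⟩ := hb
  set s : ℝ := min s1 s2 with hs
  have hs0 : 0 < s := lt_min hs1 hs2
  obtain ⟨C, hC0, hC⟩ := SMM_dec (min_le_left s1 s2) hf
  obtain ⟨D, hD0, hD⟩ := SMM_dec (min_le_right s1 s2) hg
  rw [← hs] at hC hD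
  have hsum := SMM_exp s hs0
  have hfn : Summable (fun j => ‖ι (f j) * up u j‖) :=
    Summable.of_nonneg_of_le (fun _ => norm_nonneg _)
      (fun j => (SMM_norm ι u (f j) j).trans (hC j)) (hsum.mul_left C)
  have hgn : Summable (fun j => ‖ι (g j) * up u j‖) :=
    Summable.of_nonneg_of_le (fun _ => norm_nonneg _)
      (fun j => (SMM_norm ι u (g j) j).trans (hD j)) (hsum.mul_left D)
  have hprod : HasSum (fun x : ℤ × ℤ => (ι (f x.1) * up u x.1) * (ι (g x.2) * up u x.2)) (a * b) :=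
    HasSum.mul hfa hgb (summable_mul_of_summable_norm hfn hgn)
  -- regroup
  let e : ℤ × ℤ ≃ ℤ × ℤ :=
    { toFun := fun x => (x.2, x.1 - x.2)
      invFun := fun x => (x.1 + x.2, x.1)
      left_inv := fun x => by simp
      right_inv := fun x => by simp }
  set k : ℤ → ℤ → C(X, ℂ) := fun n m => f m * sh α (-m) (g (n - m)) with hk
  have hterm : ∀ x : ℤ × ℤ, (ι (f (e x).1) * up u (e x).1) * (ι (g (e x).2) * up u (e x).2) =
      ι (k x.1 x.2) * up u x.1 := by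
    rintro ⟨n, m⟩
    show (ι (f m) * up u m) * (ι (g (n - m)) * up u (n - m)) = ι (k n m) * up u n
    have h3 := h1 X α A ι u c hc m (g (n - m))
    calc (ι (f m) * up u m) * (ι (g (n - m)) * up u (n - m))
        = ι (f m) * (up u m * ι (g (n - m))) * up u (n - m) := by simp only [mul_assoc]
      _ = ι (f m) * (ι (sh α (-m) (g (n - m))) * up u m) * up u (n - m) := by rw [h3]
      _ = ι (f m) * ι (sh α (-m) (g (n - m))) * (up u m * up u (n - m)) := by
          simp only [mul_assoc]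
      _ = ι (k n m) * up u n := by
          rw [SMM_up, ← map_mul, show m + (n - m) = n by ring]
  have hprod2 : HasSum (fun x : ℤ × ℤ => ι (k x.1 x.2) * up u x.1) (a * b) := by
    have h3 := (Equiv.hasSum_iff e).2 hprod
    have h4 : ((fun x : ℤ × ℤ => (ι (f x.1) * up u x.1) * (ι (g x.2) * up u x.2)) ∘ e) =
        fun x : ℤ × ℤ => ι (k x.1 x.2) * up u x.1 := funext hterm
    rwa [h4] at h3
  have hkn : ∀ n m : ℤ, ‖k n m‖ ≤ C * D * Real.exp (-(s / 2 * |(n : ℝ)|)) *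
      Real.exp (-(s / 2 * |(m : ℝ)|)) := by
    intro n m
    have h3 : ‖k n m‖ ≤ ‖f m‖ * ‖g (n - m)‖ :=
      (norm_mul_le _ _).trans (mul_le_mul_of_nonneg_left (SMM_sh α _ _) (norm_nonneg _))
    have h4 : Real.exp (-(s * |(m : ℝ)|)) * Real.exp (-(s * |((n - m : ℤ) : ℝ)|)) ≤
        Real.exp (-(s / 2 * |(n : ℝ)|)) * Real.exp (-(s / 2 * |(m : ℝ)|)) := by
      rw [← Real.exp_add, ← Real.exp_add, Real.exp_le_exp]
      have h5 : |(n : ℝ)| ≤ |(m : ℝ)| + |((n - m : ℤ) : ℝ)| := by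
        have h6 := abs_add_le (m : ℝ) ((n - m : ℤ) : ℝ)
        have h7 : (m : ℝ) + ((n - m : ℤ) : ℝ) = n := by
          push_cast
          ring
        rwa [h7] at h6
      have h6 := abs_nonneg (m : ℝ)
      have h7 := abs_nonneg ((n - m : ℤ) : ℝ)
      nlinarith
    calc ‖k n m‖ ≤ ‖f m‖ * ‖g (n - m)‖ := h3
      _ ≤ (C * Real.exp (-(s * |(m : ℝ)|))) * (D * Real.exp (-(s * |((n - m : ℤ) : ℝ)|))) :=
          mul_le_mul (hC m) (hD (n - m)) (norm_nonneg _) (by positivity)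
      _ = C * D * (Real.exp (-(s * |(m : ℝ)|)) * Real.exp (-(s * |((n - m : ℤ) : ℝ)|))) := by
          ring
      _ ≤ C * D * (Real.exp (-(s / 2 * |(n : ℝ)|)) * Real.exp (-(s / 2 * |(m : ℝ)|))) :=
          mul_le_mul_of_nonneg_left h4 (by positivity)
      _ = _ := by ring
  have hsum2 := SMM_exp (s / 2) (by positivity)
  have hksum : ∀ n : ℤ, Summable (k n) := fun n =>
    Summable.of_norm_bounded (hsum2.mul_left _) (hkn n)
  set h : ℤ → C(X, ℂ) := fun n => ∑' m, k n m with hh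
  have hkh : ∀ n : ℤ, HasSum (k n) (h n) := fun n => (hksum n).hasSum
  have hrep : Rep ι u h (a * b) := by
    refine HasSum.prod_fiberwise hprod2 fun n => ?_
    exact ((hkh n).map ι (SMM_cont ι)).mul_right _
  have hdec : Dec (s / 2) h := by
    refine ⟨C * D * ∑' m : ℤ, Real.exp (-(s / 2 * |(m : ℝ)|)), fun n => ?_⟩
    have h3 := tsum_of_norm_bounded (hsum2.hasSum.mul_left
      (C * D * Real.exp (-(s / 2 * |(n : ℝ)|)))) (hkn n)
    refine h3.trans_eq ?_
    ring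
  refine ⟨⟨s / 2, by positivity, h, hdec, hrep⟩, fun n x => ?_⟩
  rw [h2 X α A ι u c hc h (a * b) hrep n]
  have h3 : (fun m : ℤ => c m a x * c (n - m) b ((α ^ (-m)) x)) = fun m : ℤ => k n m x := by
    funext m
    rw [h2 X α A ι u c hc f a hfa m, h2 X α A ι u c hc g b hgb (n - m)]
    rfl
  rw [h3]
  exact (hkh n).map (ContinuousMap.evalCLM ℂ x) (ContinuousMap.evalCLM ℂ x).continuous

end Pool.Agent.CZ
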